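import Mathlib

set_option autoImplicit false

/-!
# Tensors, unit tensors, border subrank and Hilbert-Mumford subrank
-/

namespace Q52.Hm

open Filter Topology

/-- Tensors in `(ℂⁿ)^{⊗d}`, given by their coordinates in the standard basis. -/
abbrev Tensor (d n : ℕ) := (Fin d → Fin n) → ℂ

/-- `(g₁ ⊗ ⋯ ⊗ g_d) T` for matrices `g_i` with `m` rows and `n` columns. -/
def act {d m n : ℕ} (g : Fin d → Matrix (Fin m) (Fin n) ℂ) (T : Tensor d n) : Tensor d m :=
  fun a => ∑ b, (∏ i, g i (a i) (b i)) * T b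

/-- The unit tensor `I_r = ∑_{k < r} e_k ⊗ ⋯ ⊗ e_k` in `(ℂⁿ)^{⊗d}`. -/
def unitTensor (d n r : ℕ) : Tensor d n :=
  fun a => ∑ k : Fin n, if (k : ℕ) < r then ∏ i, (if a i = k then (1 : ℂ) else 0) else 0

/-- The matrices of an element of `GL_n(ℂ)^d`. -/
def mats {d n : ℕ} (g : Fin d → GL (Fin n) ℂ) : Fin d → Matrix (Fin n) (Fin n) ℂ :=
  fun i => (g i : Matrix (Fin n) (Fin n) ℂ)

/-- The orbit of `T` under `GL_n(ℂ)^d`. -/
def orbit {d n : ℕ} (T : Tensor d n) : Set (Tensor d n) :=
  Set.range fun g : Fin d → GL (Fin n) ℂ => act (mats g) T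

/-- The border subrank: the largest `r ≤ n` such that `I_r` lies in the closure of the orbit. -/
noncomputable def borderSubrank {d n : ℕ} (T : Tensor d n) : ℕ :=
  sSup {r : ℕ | r ≤ n ∧ unitTensor d n r ∈ closure (orbit T)}

/-- A one-parameter subgroup of `GL_n^d`: a homomorphism from the multiplicative group all of whose
matrix entries are Laurent polynomials in `t`. -/
structure OneParam (d n : ℕ) where
  /-- The homomorphism. -/
  hom : ℂˣ →* (Fin d → GL (Fin n) ℂ)
  /-- The entries are of the form `p(t) / t ^ N` with a polynomial `p`. -/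
  laurent : ∀ i a b, ∃ (N : ℕ) (p : Polynomial ℂ), ∀ t : ℂˣ,
    (t : ℂ) ^ N * (hom t i : Matrix (Fin n) (Fin n) ℂ) a b = p.eval (t : ℂ)

/-- `t → 0` in the multiplicative group. -/
noncomputable def toZero : Filter ℂˣ := comap (fun t : ℂˣ => (t : ℂ)) (𝓝 0)

/-- The Hilbert-Mumford subrank, read literally: the largest `r ≤ n` for which there is a
one-parameter subgroup `l` with `l(t) T → I_r` for `t → 0`. -/
noncomputable def hmSubrankLiteral {d n : ℕ} (T : Tensor d n) : ℕ :=
  sSup {r : ℕ | r ≤ n ∧ ∃ l : OneParam d n,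
    Tendsto (fun t : ℂˣ => act (mats (l.hom t)) T) toZero (𝓝 (unitTensor d n r))}

/-- The Hilbert-Mumford subrank: the largest `r ≤ n` for which there are an element `g` of the group
and a one-parameter subgroup `l` with `l(t) g T → I_r` for `t → 0`. -/
noncomputable def hmSubrank {d n : ℕ} (T : Tensor d n) : ℕ :=
  sSup {r : ℕ | r ≤ n ∧ ∃ (g : Fin d → GL (Fin n) ℂ) (l : OneParam d n),
    Tendsto (fun t : ℂˣ => act (mats (l.hom t)) (act (mats g) T)) toZero
      (𝓝 (unitTensor d n r))}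

end Q52.Hm
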