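import Mathlib
import Pool.Agent.Q52.Hm.Defs

set_option autoImplicit false

/-!
# The action of families of matrices, and eigenrows of one-parameter subgroups
-/

namespace Q52.Hm

open Filter Topology Polynomial

theorem act_act {d k m n : ℕ} (A : Fin d → Matrix (Fin k) (Fin m) ℂ)
    (B : Fin d → Matrix (Fin m) (Fin n) ℂ) (T : Tensor d n) :
    act A (act B T) = act (fun i => A i * B i) T := by
  funext a
  simp only [act, Finset.mul_sum]
  rw [Finset.sum_comm]
  refine Finset.sum_congr rfl fun c _ => ?_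
  have : (∏ i, (A i * B i) (a i) (c i)) =
      ∑ b : Fin d → Fin m, ∏ i, (A i (a i) (b i) * B i (b i) (c i)) := by
    simp only [Matrix.mul_apply]
    rw [Finset.prod_univ_sum]
    simp
  rw [this, Finset.sum_mul]
  refine Finset.sum_congr rfl fun b _ => ?_
  rw [Finset.prod_mul_distrib]
  ring

theorem continuous_act {d m n : ℕ} (g : Fin d → Matrix (Fin m) (Fin n) ℂ) :
    Continuous (fun T : Tensor d n => act g T) := by
  refine continuous_pi fun a => ?_
  exact continuous_finsetSum _ fun b _ => continuous_const.mul (continuous_apply b)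

instance toZero_neBot : toZero.NeBot := by
  rw [toZero, comap_neBot_iff]
  intro s hs
  rw [Metric.mem_nhds_iff] at hs
  obtain ⟨ε, hε, hs⟩ := hs
  have hne : ((ε / 2 : ℝ) : ℂ) ≠ 0 := by
    have : (ε / 2 : ℝ) ≠ 0 := by positivity
    exact_mod_cast this
  refine ⟨Units.mk0 _ hne, hs ?_⟩
  simp only [Units.val_mk0, Metric.mem_ball, dist_zero_right, Complex.norm_real, Real.norm_eq_abs]
  rw [abs_of_pos (by positivity)]
  linarith

/-- A polynomial expression in `s` which vanishes for all nonzero `s` has zero coefficients. -/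
theorem coeff_eq_zero {K : ℕ} (c : ℕ → ℂ)
    (h : ∀ s : ℂˣ, ∑ k ∈ Finset.range K, (s : ℂ) ^ k * c k = 0) : ∀ k < K, c k = 0 := by
  set f : ℂ[X] := ∑ k ∈ Finset.range K, C (c k) * X ^ k with hf
  have h0 : f = 0 := by
    apply Polynomial.eq_zero_of_infinite_isRoot
    refine Set.Infinite.mono (s := {z : ℂ | z ≠ 0}) ?_ ?_
    · intro z hz
      have := h (Units.mk0 z hz)
      simp only [Set.mem_ofPred_eq, IsRoot.def, hf, eval_finsetSum, eval_mul, eval_C, eval_pow,
        eval_X]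
      rw [← this]
      refine Finset.sum_congr rfl fun k _ => ?_
      simp [mul_comm]
    · have : {z : ℂ | z ≠ 0} = ({0} : Set ℂ)ᶜ := by ext; simp
      rw [this]
      exact (Set.finite_singleton (0 : ℂ)).infinite_compl
  intro k hk
  have := congrArg (fun g : ℂ[X] => g.coeff k) h0
  simpa [hf, finsetSum_coeff, coeff_C_mul, coeff_X_pow, hk] using this

/-- The coefficients of a one-parameter subgroup of `GL_n`. -/
theorem exists_coeffs {n : ℕ} (μ : ℂˣ →* GL (Fin n) ℂ)
    (h : ∀ a b, ∃ (N : ℕ) (p : ℂ[X]), ∀ t : ℂˣ,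
      (t : ℂ) ^ N * (μ t : Matrix (Fin n) (Fin n) ℂ) a b = p.eval (t : ℂ)) :
    ∃ (N K : ℕ) (Q : ℕ → Matrix (Fin n) (Fin n) ℂ), ∀ t : ℂˣ, ∀ a b,
      (t : ℂ) ^ N * (μ t : Matrix (Fin n) (Fin n) ℂ) a b =
        ∑ k ∈ Finset.range K, (t : ℂ) ^ k * Q k a b := by
  choose N p hp using h
  set M : ℕ := ∑ a, ∑ b, N a b with hM
  have hle : ∀ a b, N a b ≤ M := fun a b =>
    (Finset.single_le_sum (f := fun b => N a b) (fun _ _ => Nat.zero_le _)
      (Finset.mem_univ b)).trans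
      (Finset.single_le_sum (f := fun a => ∑ b, N a b) (fun _ _ => Nat.zero_le _)
      (Finset.mem_univ a))
  set q : Fin n → Fin n → ℂ[X] := fun a b => X ^ (M - N a b) * p a b with hq
  set K : ℕ := (∑ a, ∑ b, (q a b).natDegree) + 1 with hK
  have hlt : ∀ a b, (q a b).natDegree < K := fun a b =>
    Nat.lt_succ_of_le ((Finset.single_le_sum (f := fun b => (q a b).natDegree)
      (fun _ _ => Nat.zero_le _) (Finset.mem_univ b)).trans
      (Finset.single_le_sum (f := fun a => ∑ b, (q a b).natDegree) (fun _ _ => Nat.zero_le _)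
      (Finset.mem_univ a)))
  refine ⟨M, K, fun k => Matrix.of fun a b => (q a b).coeff k, fun t a b => ?_⟩
  have h1 : (q a b).eval (t : ℂ) = ∑ k ∈ Finset.range K, (t : ℂ) ^ k * (q a b).coeff k := by
    rw [Polynomial.eval_eq_sum_range' (hlt a b)]
    exact Finset.sum_congr rfl fun k _ => mul_comm _ _
  have h2 : (q a b).eval (t : ℂ) =
      (t : ℂ) ^ M * (μ t : Matrix (Fin n) (Fin n) ℂ) a b := by
    rw [hq]
    simp only [eval_mul, eval_pow, eval_X]
    rw [← hp a b t, ← mul_assoc, ← pow_add, Nat.sub_add_cancel (hle a b)]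
  rw [← h2, h1]
  rfl

/-- The coefficients of a one-parameter subgroup consist of eigenrows. -/
theorem coeffs_mul {n : ℕ} (μ : ℂˣ →* GL (Fin n) ℂ) (N K : ℕ)
    (Q : ℕ → Matrix (Fin n) (Fin n) ℂ)
    (h : ∀ t : ℂˣ, ∀ a b, (t : ℂ) ^ N * (μ t : Matrix (Fin n) (Fin n) ℂ) a b =
        ∑ k ∈ Finset.range K, (t : ℂ) ^ k * Q k a b) (t : ℂˣ) (k : ℕ) (hk : k < K) (a c : Fin n) :
    (Q k * (μ t : Matrix (Fin n) (Fin n) ℂ)) a c = (t : ℂ) ^ ((k : ℤ) - N) * Q k a c := by
  have ht : (t : ℂ) ≠ 0 := t.ne_zero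
  have key := coeff_eq_zero (K := K)
    (fun k => (Q k * (μ t : Matrix (Fin n) (Fin n) ℂ)) a c - (t : ℂ) ^ ((k : ℤ) - N) * Q k a c)
    (fun s => by
      have hs : (s : ℂ) ≠ 0 := s.ne_zero
      have e1 : ∑ k ∈ Finset.range K, (s : ℂ) ^ k *
          (Q k * (μ t : Matrix (Fin n) (Fin n) ℂ)) a c =
          (s : ℂ) ^ N * (μ (s * t) : Matrix (Fin n) (Fin n) ℂ) a c := by
        rw [map_mul, Units.val_mul, Matrix.mul_apply, Finset.mul_sum]
        simp only [Matrix.mul_apply, Finset.mul_sum]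
        rw [Finset.sum_comm]
        refine Finset.sum_congr rfl fun b _ => ?_
        rw [← mul_assoc, h s a b, Finset.sum_mul]
        exact Finset.sum_congr rfl fun k _ => by ring
      have e2 : ∑ k ∈ Finset.range K, (s : ℂ) ^ k * ((t : ℂ) ^ ((k : ℤ) - N) * Q k a c) =
          (s : ℂ) ^ N * (μ (s * t) : Matrix (Fin n) (Fin n) ℂ) a c := by
        have h3 := h (s * t) a c
        rw [Units.val_mul, mul_pow] at h3
        have h4 : (t : ℂ) ^ N * ((s : ℂ) ^ N * (μ (s * t) : Matrix (Fin n) (Fin n) ℂ) a c) =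
            ∑ k ∈ Finset.range K, ((s : ℂ) * (t : ℂ)) ^ k * Q k a c := by
          rw [← h3]; ring
        have htN : (t : ℂ) ^ N ≠ 0 := pow_ne_zero _ ht
        apply mul_left_cancel₀ htN
        rw [h4, Finset.mul_sum]
        refine Finset.sum_congr rfl fun k _ => ?_
        rw [zpow_sub₀ ht, zpow_natCast, zpow_natCast, mul_pow]
        field_simp
      simp only [mul_sub, Finset.sum_sub_distrib]
      rw [e1, e2, sub_self]) k hk
  exact sub_eq_zero.mp key

/-- For a one-parameter subgroup of `GL_3` there are two eigenrows whose restrictions to the first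
two coordinates are linearly independent. -/
theorem exists_eigenrows (μ : ℂˣ →* GL (Fin 3) ℂ)
    (h : ∀ a b, ∃ (N : ℕ) (p : ℂ[X]), ∀ t : ℂˣ,
      (t : ℂ) ^ N * (μ t : Matrix (Fin 3) (Fin 3) ℂ) a b = p.eval (t : ℂ)) :
    ∃ (A : Matrix (Fin 2) (Fin 3) ℂ) (w : Fin 2 → ℤ),
      (∀ t : ℂˣ, ∀ j c, (A * (μ t : Matrix (Fin 3) (Fin 3) ℂ)) j c = (t : ℂ) ^ w j * A j c) ∧
      A 0 0 * A 1 1 - A 0 1 * A 1 0 ≠ 0 := by
  obtain ⟨N, K, Q, hQ⟩ := exists_coeffs μ h
  have hmul := coeffs_mul μ N K Q hQ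
  have hone : ∀ a b, ∑ k ∈ Finset.range K, Q k a b = (1 : Matrix (Fin 3) (Fin 3) ℂ) a b := by
    intro a b
    have := hQ 1 a b
    simpa using this.symm
  have hsum : ∑ k ∈ Finset.range K, ∑ l ∈ Finset.range K,
      (Q k 0 0 * Q l 1 1 - Q k 0 1 * Q l 1 0) = 1 := by
    simp only [Finset.sum_sub_distrib, ← Finset.mul_sum, ← Finset.sum_mul, hone]
    simp
  obtain ⟨k, hk, hk'⟩ := Finset.exists_ne_zero_of_sum_ne_zero (by rw [hsum]; exact one_ne_zero)
  obtain ⟨l, hl, hl'⟩ := Finset.exists_ne_zero_of_sum_ne_zero hk'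
  refine ⟨Matrix.of ![Q k 0, Q l 1], ![(k : ℤ) - N, (l : ℤ) - N], ?_, by simpa using hl'⟩
  intro t j c
  have h0 := hmul t k (Finset.mem_range.mp hk) 0 c
  have h1 := hmul t l (Finset.mem_range.mp hl) 1 c
  rw [Matrix.mul_apply] at h0 h1 ⊢
  fin_cases j
  · simpa using h0
  · simpa using h1

end Q52.Hm
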