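import Mathlib

set_option autoImplicit false

/-!
# Invariants of `2 × 2 × 2 × 2` tensors
-/

namespace Q52.Hm

/-- `2 × 2 × 2 × 2` tensors. -/
abbrev Qu := Fin 2 → Fin 2 → Fin 2 → Fin 2 → ℂ

/-- The invariant of degree two. -/
def hI (S : Qu) : ℂ :=
  S 0 0 0 0 * S 1 1 1 1 - S 0 0 0 1 * S 1 1 1 0 - S 0 0 1 0 * S 1 1 0 1 - S 0 1 0 0 * S 1 0 1 1
    - S 1 0 0 0 * S 0 1 1 1 + S 0 0 1 1 * S 1 1 0 0 + S 0 1 0 1 * S 1 0 1 0
    + S 0 1 1 0 * S 1 0 0 1

/-- The `2 × 2` minor with columns `v, w`. -/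
def mi (v w : Fin 2 → ℂ) : ℂ := v 0 * w 1 - v 1 * w 0

/-- The determinant of the `4 × 4` matrix with columns `a, b, c, d`; each column is given by its
upper and its lower half. -/
def d4 (a b c d : Fin 2 → Fin 2 → ℂ) : ℂ :=
  mi (a 0) (b 0) * mi (c 1) (d 1) - mi (a 0) (c 0) * mi (b 1) (d 1)
    + mi (a 0) (d 0) * mi (b 1) (c 1) + mi (b 0) (c 0) * mi (a 1) (d 1)
    - mi (b 0) (d 0) * mi (a 1) (c 1) + mi (c 0) (d 0) * mi (a 1) (b 1)

/-- The determinant of the flattening `(12|34)`. -/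
def lI (S : Qu) : ℂ :=
  d4 (fun i j => S i j 0 0) (fun i j => S i j 0 1) (fun i j => S i j 1 0) (fun i j => S i j 1 1)

/-- The determinant of the flattening `(13|24)`. -/
def mI (S : Qu) : ℂ :=
  d4 (fun i j => S i 0 j 0) (fun i j => S i 0 j 1) (fun i j => S i 1 j 0) (fun i j => S i 1 j 1)

theorem hI_sum (x y z w x' y' z' w' : Fin 2 → ℂ) :
    hI (fun i j k l => x i * y j * z k * w l + x' i * y' j * z' k * w' l) =
      mi x x' * mi y y' * mi z z' * mi w w' := by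
  simp only [hI, mi]; ring

theorem lI_sum (x y z w x' y' z' w' : Fin 2 → ℂ) :
    lI (fun i j k l => x i * y j * z k * w l + x' i * y' j * z' k * w' l) = 0 := by
  simp only [lI, d4, mi]; ring

theorem mI_sum (x y z w x' y' z' w' : Fin 2 → ℂ) :
    mI (fun i j k l => x i * y j * z k * w l + x' i * y' j * z' k * w' l) = 0 := by
  simp only [mI, d4, mi]; ring

theorem hI_scale (S : Qu) (x y z w : Fin 2 → ℂ) :
    hI (fun i j k l => x i * y j * z k * w l * S i j k l) =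
      (x 0 * x 1 * y 0 * y 1 * z 0 * z 1 * w 0 * w 1) * hI S := by
  simp only [hI]; ring

theorem lI_scale (S : Qu) (x y z w : Fin 2 → ℂ) :
    lI (fun i j k l => x i * y j * z k * w l * S i j k l) =
      (x 0 * x 1 * y 0 * y 1 * z 0 * z 1 * w 0 * w 1) ^ 2 * lI S := by
  simp only [lI, d4, mi]; ring

theorem mI_scale (S : Qu) (x y z w : Fin 2 → ℂ) :
    mI (fun i j k l => x i * y j * z k * w l * S i j k l) =
      (x 0 * x 1 * y 0 * y 1 * z 0 * z 1 * w 0 * w 1) ^ 2 * mI S := by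
  simp only [mI, d4, mi]; ring

/-- Action on the second factor. -/
def a2 (B : Fin 2 → Fin 2 → ℂ) (S : Qu) : Qu := fun i j k l => B j 0 * S i 0 k l + B j 1 * S i 1 k l
/-- Action on the third factor. -/
def a3 (B : Fin 2 → Fin 2 → ℂ) (S : Qu) : Qu := fun i j k l => B k 0 * S i j 0 l + B k 1 * S i j 1 l
/-- Action on the fourth factor. -/
def a4 (B : Fin 2 → Fin 2 → ℂ) (S : Qu) : Qu := fun i j k l => B l 0 * S i j k 0 + B l 1 * S i j k 1

theorem hI_a2 (B : Fin 2 → Fin 2 → ℂ) (S : Qu) : hI (a2 B S) = mi (B 0) (B 1) * hI S := by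
  simp only [hI, mi, a2]; ring
theorem hI_a3 (B : Fin 2 → Fin 2 → ℂ) (S : Qu) : hI (a3 B S) = mi (B 0) (B 1) * hI S := by
  simp only [hI, mi, a3]; ring
theorem hI_a4 (B : Fin 2 → Fin 2 → ℂ) (S : Qu) : hI (a4 B S) = mi (B 0) (B 1) * hI S := by
  simp only [hI, mi, a4]; ring
theorem lI_a2 (B : Fin 2 → Fin 2 → ℂ) (S : Qu) : lI (a2 B S) = mi (B 0) (B 1) ^ 2 * lI S := by
  simp only [lI, d4, mi, a2]; ring
theorem lI_a3 (B : Fin 2 → Fin 2 → ℂ) (S : Qu) : lI (a3 B S) = mi (B 0) (B 1) ^ 2 * lI S := by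
  simp only [lI, d4, mi, a3]; ring
theorem lI_a4 (B : Fin 2 → Fin 2 → ℂ) (S : Qu) : lI (a4 B S) = mi (B 0) (B 1) ^ 2 * lI S := by
  simp only [lI, d4, mi, a4]; ring
theorem mI_a2 (B : Fin 2 → Fin 2 → ℂ) (S : Qu) : mI (a2 B S) = mi (B 0) (B 1) ^ 2 * mI S := by
  simp only [mI, d4, mi, a2]; ring
theorem mI_a3 (B : Fin 2 → Fin 2 → ℂ) (S : Qu) : mI (a3 B S) = mi (B 0) (B 1) ^ 2 * mI S := by
  simp only [mI, d4, mi, a3]; ring
theorem mI_a4 (B : Fin 2 → Fin 2 → ℂ) (S : Qu) : mI (a4 B S) = mi (B 0) (B 1) ^ 2 * mI S := by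
  simp only [mI, d4, mi, a4]; ring

/-- If the three matrices act and the two quartic invariants vanish only when `hI` does, the same
holds after the action. -/
theorem hI_eq_zero (B C D : Fin 2 → Fin 2 → ℂ) (S : Qu) (h : lI S = 0 → mI S = 0 → hI S = 0)
    (hl : lI (a2 B (a3 C (a4 D S))) = 0) (hm : mI (a2 B (a3 C (a4 D S))) = 0) :
    hI (a2 B (a3 C (a4 D S))) = 0 := by
  rw [lI_a2, lI_a3, lI_a4] at hl
  rw [mI_a2, mI_a3, mI_a4] at hm
  rw [hI_a2, hI_a3, hI_a4]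
  by_cases hB : mi (B 0) (B 1) = 0
  · rw [hB]; ring
  by_cases hC : mi (C 0) (C 1) = 0
  · rw [hC]; ring
  by_cases hD : mi (D 0) (D 1) = 0
  · rw [hD]; ring
  have hl' : lI S = 0 := by simpa [hB, hC, hD] using hl
  have hm' : mI S = 0 := by simpa [hB, hC, hD] using hm
  rw [h hl' hm']; ring

end Q52.Hm
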