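import Mathlib
import Pool.Agent.Q52.Hm.Defs
import Pool.Agent.Q52.Hm.Inv
import Pool.Agent.Q52.Hm.Eig

set_option autoImplicit false

/-!
# The tensor in `ℂ³ ⊗ ℂ² ⊗ ℂ² ⊗ ℂ² ⊂ (ℂ³)^{⊗4}` and its one-parameter limits
-/

namespace Q52.Hm

open Filter Topology

/-- The supports of the tensor. -/
def cc : Fin 7 → Fin 4 → Fin 3 :=
  ![![0, 0, 1, 0], ![0, 1, 0, 1], ![1, 0, 0, 0], ![1, 0, 1, 1], ![2, 0, 1, 1], ![2, 1, 0, 0],
    ![2, 1, 1, 1]]

/-- The tensor. -/
def TT : Tensor 4 3 := fun b => ∑ s : Fin 7, if b = cc s then 1 else 0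

theorem act_TT {m : ℕ} (A : Fin 4 → Matrix (Fin m) (Fin 3) ℂ) (a : Fin 4 → Fin m) :
    act A TT a = ∑ s : Fin 7, ∏ i, A i (a i) (cc s i) := by
  simp only [act, TT, Finset.mul_sum]
  rw [Finset.sum_comm]
  refine Finset.sum_congr rfl fun s _ => ?_
  simp

theorem act_TT' {m : ℕ} (A : Fin 4 → Matrix (Fin m) (Fin 3) ℂ) (a : Fin 4 → Fin m) :
    act A TT a = A 0 (a 0) 0 * A 1 (a 1) 0 * A 2 (a 2) 1 * A 3 (a 3) 0
      + A 0 (a 0) 0 * A 1 (a 1) 1 * A 2 (a 2) 0 * A 3 (a 3) 1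
      + A 0 (a 0) 1 * A 1 (a 1) 0 * A 2 (a 2) 0 * A 3 (a 3) 0
      + A 0 (a 0) 1 * A 1 (a 1) 0 * A 2 (a 2) 1 * A 3 (a 3) 1
      + A 0 (a 0) 2 * A 1 (a 1) 0 * A 2 (a 2) 1 * A 3 (a 3) 1
      + A 0 (a 0) 2 * A 1 (a 1) 1 * A 2 (a 2) 0 * A 3 (a 3) 0
      + A 0 (a 0) 2 * A 1 (a 1) 1 * A 2 (a 2) 1 * A 3 (a 3) 1 := by
  rw [act_TT]
  simp only [Fin.sum_univ_succ, Fin.prod_univ_four, cc]
  simp
  ring

/-- A tensor of format `2 × 2 × 2 × 2` as a function of four indices. -/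
def qu (X : Tensor 4 2) : Qu := fun i j k l => X ![i, j, k, l]

/-- The restriction of the tensor to a plane in the first factor. -/
def base (u : Fin 2 → Fin 3 → ℂ) : Qu := fun i =>
  ![![![u i 1, 0], ![u i 0, u i 1 + u i 2]], ![![u i 2, u i 0], ![0, u i 2]]]

theorem qu_act_TT (A : Fin 4 → Matrix (Fin 2) (Fin 3) ℂ) :
    qu (act A TT) = a2 (fun i j => A 1 i (Fin.castSucc j)) (a3 (fun i j => A 2 i (Fin.castSucc j))
      (a4 (fun i j => A 3 i (Fin.castSucc j)) (base (fun i j => A 0 i j)))) := by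
  funext i j k l
  simp only [qu, act_TT', a2, a3, a4, base]
  simp
  ring

theorem base_inv (u : Fin 2 → Fin 3 → ℂ) (hl : lI (base u) = 0) (hm : mI (base u) = 0) :
    hI (base u) = 0 := by
  have e1 : lI (base u) = (u 0 2 * u 1 0 - u 0 0 * u 1 2) ^ 2 := by
    simp [lI, d4, mi, base]; ring
  have e2 : mI (base u) = (u 0 1 * u 1 2 - u 0 2 * u 1 1) ^ 2
      + (u 0 2 * u 1 0 - u 0 0 * u 1 2) *
        ((u 0 2 * u 1 0 - u 0 0 * u 1 2) - (u 0 0 * u 1 1 - u 0 1 * u 1 0)) := by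
    simp [mI, d4, mi, base]; ring
  have e3 : hI (base u) = 2 * (u 0 1 * u 1 2 - u 0 2 * u 1 1) := by
    simp [hI, base]; ring
  rw [e1] at hl
  have h0 : u 0 2 * u 1 0 - u 0 0 * u 1 2 = 0 := by
    exact pow_eq_zero_iff (two_ne_zero) |>.mp hl
  rw [e2, h0] at hm
  have h1 : u 0 1 * u 1 2 - u 0 2 * u 1 1 = 0 := by
    have : (u 0 1 * u 1 2 - u 0 2 * u 1 1) ^ 2 = 0 := by simpa using hm
    exact pow_eq_zero_iff (two_ne_zero) |>.mp this
  rw [e3, h1, mul_zero]

/-- No restriction of the tensor to a `2 × 2 × 2 × 2` tensor has `lI = mI = 0` and `hI ≠ 0`. -/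
theorem no_restriction (A : Fin 4 → Matrix (Fin 2) (Fin 3) ℂ) (hl : lI (qu (act A TT)) = 0)
    (hm : mI (qu (act A TT)) = 0) : hI (qu (act A TT)) = 0 := by
  rw [qu_act_TT] at hl hm ⊢
  exact hI_eq_zero _ _ _ _ (base_inv _) hl hm

theorem continuous_hI : Continuous (fun X : Tensor 4 2 => hI (qu X)) := by
  simp only [hI, qu]; fun_prop

theorem continuous_lI : Continuous (fun X : Tensor 4 2 => lI (qu X)) := by
  simp only [lI, d4, mi, qu]; fun_prop

theorem continuous_mI : Continuous (fun X : Tensor 4 2 => mI (qu X)) := by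
  simp only [mI, d4, mi, qu]; fun_prop

theorem act_unit_two (A : Fin 4 → Matrix (Fin 2) (Fin 3) ℂ) :
    qu (act A (unitTensor 4 3 2)) = fun i j k l =>
      A 0 i 0 * A 1 j 0 * A 2 k 0 * A 3 l 0 + A 0 i 1 * A 1 j 1 * A 2 k 1 * A 3 l 1 := by
  funext i j k l
  have key : ∀ k' : Fin 3, (∑ b : Fin 4 → Fin 3, (∏ q, A q (![i, j, k, l] q) (b q)) *
      ∏ q, (if b q = k' then (1 : ℂ) else 0)) = ∏ q, A q (![i, j, k, l] q) k' := by
    intro k'
    rw [Finset.sum_eq_single (fun _ => k')]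
    · simp
    · intro b _ hb
      have : ∃ q, b q ≠ k' := by
        by_contra hcon
        push Not at hcon
        exact hb (funext hcon)
      obtain ⟨q, hq⟩ := this
      rw [Finset.prod_eq_zero (i := q) (f := fun q => if b q = k' then (1 : ℂ) else 0)
        (Finset.mem_univ q) (by simp [hq]), mul_zero]
    · intro h; exact absurd (Finset.mem_univ _) h
  simp only [qu, act, unitTensor, Finset.mul_sum]
  rw [Finset.sum_comm]
  simp only [Fin.sum_univ_three]
  have k0 := key 0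
  have k1 := key 1
  simp only [Fin.prod_univ_four] at k0 k1
  simp at k0 k1
  simp [Fin.prod_univ_four, k0, k1]

/-- `I_2` is not a one-parameter limit. -/
theorem not_tendsto_two (g : Fin 4 → GL (Fin 3) ℂ) (l : OneParam 4 3) :
    ¬ Tendsto (fun t : ℂˣ => act (mats (l.hom t)) (act (mats g) TT)) toZero
      (𝓝 (unitTensor 4 3 2)) := by
  intro hT
  -- eigenrows
  have hex : ∀ i : Fin 4, ∃ (A : Matrix (Fin 2) (Fin 3) ℂ) (w : Fin 2 → ℤ),
      (∀ t : ℂˣ, ∀ j c, (A * (l.hom t i : Matrix (Fin 3) (Fin 3) ℂ)) j c =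
        (t : ℂ) ^ w j * A j c) ∧ A 0 0 * A 1 1 - A 0 1 * A 1 0 ≠ 0 := by
    intro i
    exact exists_eigenrows ((Pi.evalMonoidHom (fun _ => GL (Fin 3) ℂ) i).comp l.hom)
      (fun a b => l.laurent i a b)
  choose A w hA hdet using hex
  set S : Tensor 4 2 := act A (act (mats g) TT) with hS
  -- the compressed family
  have hfam : ∀ t : ℂˣ, qu (act A (act (mats (l.hom t)) (act (mats g) TT))) =
      fun i j k m => (fun c => (t : ℂ) ^ w 0 c) i * (fun c => (t : ℂ) ^ w 1 c) j *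
        (fun c => (t : ℂ) ^ w 2 c) k * (fun c => (t : ℂ) ^ w 3 c) m * qu S i j k m := by
    intro t
    funext i j k m
    rw [act_act]
    simp only [qu, hS]
    simp only [act]
    rw [Finset.mul_sum]
    refine Finset.sum_congr rfl fun b _ => ?_
    have : ∏ q, (A q * mats (l.hom t) q) (![i, j, k, m] q) (b q) =
        ∏ q, ((t : ℂ) ^ w q (![i, j, k, m] q) * A q (![i, j, k, m] q) (b q)) :=
      Finset.prod_congr rfl fun q _ => hA q t _ _
    rw [this, Finset.prod_mul_distrib]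
    simp [Fin.prod_univ_four]
    ring
  have hlim := ((continuous_act A).tendsto _).comp hT
  have hH := (continuous_hI.tendsto _).comp hlim
  have hL := (continuous_lI.tendsto _).comp hlim
  have hM := (continuous_mI.tendsto _).comp hlim
  simp only [Function.comp_def] at hH hL hM
  simp only [hfam, hI_scale, lI_scale, mI_scale] at hH hL hM
  rw [act_unit_two] at hH hL hM
  rw [hI_sum (fun i => A 0 i 0) (fun i => A 1 i 0) (fun i => A 2 i 0) (fun i => A 3 i 0)
    (fun i => A 0 i 1) (fun i => A 1 i 1) (fun i => A 2 i 1) (fun i => A 3 i 1)] at hH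
  rw [lI_sum (fun i => A 0 i 0) (fun i => A 1 i 0) (fun i => A 2 i 0) (fun i => A 3 i 0)
    (fun i => A 0 i 1) (fun i => A 1 i 1) (fun i => A 2 i 1) (fun i => A 3 i 1)] at hL
  rw [mI_sum (fun i => A 0 i 0) (fun i => A 1 i 0) (fun i => A 2 i 0) (fun i => A 3 i 0)
    (fun i => A 0 i 1) (fun i => A 1 i 1) (fun i => A 2 i 1) (fun i => A 3 i 1)] at hM
  set W : ℂˣ → ℂ := fun t => (t : ℂ) ^ w 0 0 * (t : ℂ) ^ w 0 1 * (t : ℂ) ^ w 1 0 *
    (t : ℂ) ^ w 1 1 * (t : ℂ) ^ w 2 0 * (t : ℂ) ^ w 2 1 * (t : ℂ) ^ w 3 0 * (t : ℂ) ^ w 3 1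
  set η : ℂ := mi (fun i => A 0 i 0) (fun i => A 0 i 1) * mi (fun i => A 1 i 0) (fun i => A 1 i 1) *
    mi (fun i => A 2 i 0) (fun i => A 2 i 1) * mi (fun i => A 3 i 0) (fun i => A 3 i 1) with hη
  have hη0 : η ≠ 0 := by
    have h1 : ∀ i, mi (fun j => A i j 0) (fun j => A i j 1) ≠ 0 := by
      intro i
      have := hdet i
      simp only [mi]
      intro h0
      apply this
      linear_combination h0
    rw [hη]
    exact mul_ne_zero (mul_ne_zero (mul_ne_zero (h1 0) (h1 1)) (h1 2)) (h1 3)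
  have hH0 : hI (qu S) ≠ 0 := by
    intro h0
    rw [h0] at hH
    simp only [mul_zero] at hH
    exact hη0 (tendsto_nhds_unique tendsto_const_nhds hH).symm
  have hL0 : lI (qu S) = 0 := by
    have h1 := (hH.pow 2).mul_const (lI (qu S))
    have h2 := hL.mul_const (hI (qu S) ^ 2)
    have h3 : (fun t : ℂˣ => (W t * hI (qu S)) ^ 2 * lI (qu S)) =
        fun t => W t ^ 2 * lI (qu S) * hI (qu S) ^ 2 := by
      funext t; ring
    have h4 := tendsto_nhds_unique (h3 ▸ h1) h2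
    have h5 : η ^ 2 * lI (qu S) = 0 := by rw [h4]; ring
    rcases mul_eq_zero.mp h5 with h6 | h6
    · exact absurd h6 (pow_ne_zero _ hη0)
    · exact h6
  have hM0 : mI (qu S) = 0 := by
    have h1 := (hH.pow 2).mul_const (mI (qu S))
    have h2 := hM.mul_const (hI (qu S) ^ 2)
    have h3 : (fun t : ℂˣ => (W t * hI (qu S)) ^ 2 * mI (qu S)) =
        fun t => W t ^ 2 * mI (qu S) * hI (qu S) ^ 2 := by
      funext t; ring
    have h4 := tendsto_nhds_unique (h3 ▸ h1) h2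
    have h5 : η ^ 2 * mI (qu S) = 0 := by rw [h4]; ring
    rcases mul_eq_zero.mp h5 with h6 | h6
    · exact absurd h6 (pow_ne_zero _ hη0)
    · exact h6
  rw [hS, act_act] at hH0 hL0 hM0
  exact hH0 (no_restriction _ hL0 hM0)

/-- `I_3` is not in the closure of the orbit. -/
theorem unit_three_notMem : unitTensor 4 3 3 ∉ closure (orbit TT) := by
  intro h
  let K : Tensor 4 3 → ℂ := fun X => Matrix.det (Matrix.of fun (j k : Fin 3) => X ![k, j, k, k])
  have hK : Continuous K := by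
    refine Continuous.matrix_det ?_
    refine continuous_pi fun j => continuous_pi fun k => ?_
    exact continuous_apply _
  have hsub : orbit TT ⊆ {X | K X = 0} := by
    rintro _ ⟨g, rfl⟩
    show Matrix.det _ = 0
    have hprod : (Matrix.of fun (j k : Fin 3) => act (mats g) TT ![k, j, k, k]) =
        mats g 1 * (Matrix.of fun (j k : Fin 3) =>
          ![mats g 0 k 0 * mats g 2 k 1 * mats g 3 k 0 + mats g 0 k 1 * mats g 2 k 0 * mats g 3 k 0
            + mats g 0 k 1 * mats g 2 k 1 * mats g 3 k 1 + mats g 0 k 2 * mats g 2 k 1 * mats g 3 k 1,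
            mats g 0 k 0 * mats g 2 k 0 * mats g 3 k 1 + mats g 0 k 2 * mats g 2 k 0 * mats g 3 k 0
            + mats g 0 k 2 * mats g 2 k 1 * mats g 3 k 1, 0] j) := by
      ext j k
      rw [Matrix.mul_apply]
      simp only [Matrix.of_apply, act_TT', Fin.sum_univ_three]
      simp
      ring
    have hz : Matrix.det (Matrix.of fun (j k : Fin 3) =>
          ![mats g 0 k 0 * mats g 2 k 1 * mats g 3 k 0 + mats g 0 k 1 * mats g 2 k 0 * mats g 3 k 0
            + mats g 0 k 1 * mats g 2 k 1 * mats g 3 k 1 + mats g 0 k 2 * mats g 2 k 1 * mats g 3 k 1,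
            mats g 0 k 0 * mats g 2 k 0 * mats g 3 k 1 + mats g 0 k 2 * mats g 2 k 0 * mats g 3 k 0
            + mats g 0 k 2 * mats g 2 k 1 * mats g 3 k 1, 0] j) = 0 :=
      Matrix.det_eq_zero_of_row_eq_zero (2 : Fin 3) (fun k => by simp)
    rw [hprod, Matrix.det_mul, hz, mul_zero]
  have hcl : closure (orbit TT) ⊆ {X | K X = 0} :=
    closure_minimal hsub (isClosed_eq hK continuous_const)
  have h0 : K (unitTensor 4 3 3) = 0 := hcl h
  have h1 : K (unitTensor 4 3 3) = 1 := by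
    show Matrix.det _ = 1
    have : (Matrix.of fun (j k : Fin 3) => unitTensor 4 3 3 ![k, j, k, k]) = 1 := by
      ext j k
      simp only [Matrix.of_apply, unitTensor, Fin.sum_univ_three, Fin.prod_univ_four]
      fin_cases j <;> fin_cases k <;> simp
    rw [this, Matrix.det_one]
  rw [h1] at h0
  exact one_ne_zero h0

end Q52.Hm
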