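import Mathlib
import Pool.Agent.Q52.Hm.Defs
import Pool.Agent.Q52.Hm.Main

set_option autoImplicit false

/-!
# The unit tensor `I_2` lies in the closure of the orbit
-/

namespace Q52.Hm

open Filter Topology

/-- The degeneration: four families of matrices. -/
noncomputable def gm (e : ℂ) : Fin 4 → Matrix (Fin 3) (Fin 3) ℂ :=
  ![!![0, (e⁻¹) ^ 2 / 2, -(e ^ 2 / 2); 1, -((e⁻¹) ^ 2 / 2), -(e ^ 2 / 2); 0, 0, e ^ 7],
    !![1, 0, 0; (e⁻¹) ^ 2, (e⁻¹) ^ 6, 0; 0, 0, 1],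
    !![e ^ 2, 1, 0; e ^ 3, 0, 0; 0, 0, 1],
    !![1, e ^ 2, 0; 0, e ^ 3, 0; 0, 0, 1]]

theorem det_gm (e : ℂ) (he : e ≠ 0) (i : Fin 4) : IsUnit (gm e i).det := by
  rw [isUnit_iff_ne_zero]
  fin_cases i
  · simp [gm, Matrix.det_fin_three, he]
  · simp [gm, Matrix.det_fin_three, he]
  · simp [gm, Matrix.det_fin_three, he]
  · simp [gm, Matrix.det_fin_three, he]

/-- The degenerating family of tensors, with polynomial coordinates. -/
noncomputable def RR (e : ℂ) : Fin 3 → Fin 3 → Fin 3 → Fin 3 → ℂ :=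
  ![![![![1 - e ^ 4 / 2, (e - e ^ 5) / 2, 0], ![e / 2, 0, 0], 0],
      ![![-(e ^ 2 / 2), -(e ^ 3 / 2), 0], 0, 0], 0],
    ![![![-(e ^ 4 / 2), -(e / 2) - e ^ 5 / 2, 0], ![-(e / 2), 0, 0], 0],
      ![![-(e ^ 2 / 2), -(e ^ 3 / 2), 0], ![0, 1, 0], 0], 0],
    ![![![e ^ 9, e ^ 10, 0], 0, 0],
      ![![2 * e ^ 3 + e ^ 7, e ^ 4 + e ^ 8, 0], ![e ^ 4, 0, 0], 0], 0]]

theorem act_gm (e : ℂ) (he : e ≠ 0) (i j k l : Fin 3) :
    act (gm e) TT ![i, j, k, l] = RR e i j k l := by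
  rw [act_TT']
  fin_cases i <;> fin_cases j <;> fin_cases k <;> fin_cases l <;>
    simp [gm, RR] <;> field_simp <;> ring

theorem continuous_RR (i j k l : Fin 3) : Continuous (fun e : ℂ => RR e i j k l) := by
  fin_cases i <;> fin_cases j <;> fin_cases k <;> fin_cases l <;> simp [RR] <;> fun_prop

theorem RR_zero (i j k l : Fin 3) : RR 0 i j k l = unitTensor 4 3 2 ![i, j, k, l] := by
  simp only [unitTensor, Fin.sum_univ_three, Fin.prod_univ_four]
  fin_cases i <;> fin_cases j <;> fin_cases k <;> fin_cases l <;> simp [RR]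

theorem unit_two_mem : unitTensor 4 3 2 ∈ closure (orbit TT) := by
  have hvec : ∀ a : Fin 4 → Fin 3, ![a 0, a 1, a 2, a 3] = a := by
    intro a
    funext i
    fin_cases i <;> rfl
  have h1 : Tendsto (fun e : ℂ => (fun a : Fin 4 → Fin 3 => RR e (a 0) (a 1) (a 2) (a 3)))
      (𝓝[≠] 0) (𝓝 (unitTensor 4 3 2)) := by
    refine tendsto_pi_nhds.mpr fun a => ?_
    have h := (continuous_RR (a 0) (a 1) (a 2) (a 3)).tendsto 0
    rw [RR_zero, hvec] at h
    exact h.mono_left nhdsWithin_le_nhds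
  refine mem_closure_of_tendsto h1 ?_
  filter_upwards [self_mem_nhdsWithin] with e he
  have he0 : e ≠ 0 := he
  refine ⟨fun i => Matrix.GeneralLinearGroup.mkOfDetNeZero (gm e i)
    (isUnit_iff_ne_zero.mp (det_gm e he0 i)), ?_⟩
  funext a
  have hm : mats (fun i => Matrix.GeneralLinearGroup.mkOfDetNeZero (gm e i)
    (isUnit_iff_ne_zero.mp (det_gm e he0 i))) = gm e := rfl
  show act (mats (fun i => Matrix.GeneralLinearGroup.mkOfDetNeZero (gm e i)
    (isUnit_iff_ne_zero.mp (det_gm e he0 i)))) TT a = RR e (a 0) (a 1) (a 2) (a 3)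
  rw [hm]
  have := act_gm e he0 (a 0) (a 1) (a 2) (a 3)
  rwa [hvec] at this

end Q52.Hm
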